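import Pool.Agent.W682.TW.Stm

/-! Project TW: the null Lagrangian is affine along rank-one lines. -/

set_option autoImplicit false

namespace Pool.Agent.W315.TW.NL

open Pool.Agent.W682.TW

theorem main : S_NL := by
  intro n m e c F v β
  refine ⟨NN e c F, -c * ∑ ι : (Unit ⊕ Fin (2 * n)) ⊕ Fin n, ∑ κ : (Unit ⊕ Fin (2 * n)) ⊕ Fin n,
    (β (e (za n κ)) * dt (col e F (za n ι)) v + β (e (za n ι)) * dt v (col e F (za n κ))) /
      dt (kr n (za n ι)) (kr n (za n κ)), ?_⟩
  intro t
  unfold NN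
  rw [mul_assoc, Finset.sum_mul, ← mul_add, ← Finset.sum_add_distrib]
  congr 1
  apply Finset.sum_congr rfl
  intro ι _
  rw [Finset.sum_mul, ← Finset.sum_add_distrib]
  apply Finset.sum_congr rfl
  intro κ _
  rw [div_mul_eq_mul_div, ← add_div]
  congr 1
  simp only [dt, col, Matrix.add_apply, Matrix.smul_apply, Matrix.vecMulVec_apply, smul_eq_mul]
  ring

end Pool.Agent.W315.TW.NL
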